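import Pool.Agent.Helper17.DF.Geo
import Pool.Agent.Helper59.DF.InjA
import Pool.Agent.Helper35.DG.EdgesA
import Pool.Agent.Helper67.DG.EmbMk

set_option autoImplicit false

/-!
The configuration `A` does not occur if its piece has no data.
-/

namespace Pool.Agent.Helper17.CT
open Function

def getB : List Bool → ℕ → Bool
  | [], _ => false
  | a :: _, 0 => a
  | _ :: l, n + 1 => getB l n

/-- the lists describe the outer boundary of the coded piece, cut open -/
def okRing (F : Code) (rl : List ℕ) (ul : List Bool) (tl : List ℕ) : Bool :=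
  allN (fun t => decide (getN rl t < 3 * F.n)) rl.length &&
  allN (fun t => decide (t + 1 = rl.length) || (decide (d4 F.P (getN rl t) = 0) &&
    decide (d6 F.E (getN rl t) = cond (getB ul (t + 1)) (nx (getN rl (t + 1)))
      (nx (nx (getN rl (t + 1))))))) rl.length &&
  allN (fun j => decide (d6 F.Q j = nx (getN rl (getN tl j))) && (!getB ul (getN tl j) &&
    (decide (getN tl j < rl.length) && allN (fun i => decide (getN tl i < getN tl j)) j))) F.k &&
  allN (fun t => allN (fun t' => decide (getN rl t / 3 ≠ getN rl t' / 3)) t) rl.length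

theorem ring_of_list (F : Code) (hF : CodeOK F) (rl : List ℕ) (ul : List Bool) (tl : List ℕ)
    (h : okRing F rl ul tl = true) :
    ∃ (R : ℕ) (r : ℕ → Fin (3 * F.n)) (u : ℕ → Bool) (τ : Fin F.k → ℕ),
      Ring (piece F hF) R r u τ := by
  unfold okRing at h
  simp only [Bool.and_eq_true, allN_iff, decide_eq_true_eq, Bool.or_eq_true,
    Bool.not_eq_true'] at h
  obtain ⟨⟨⟨h1, h2⟩, h3⟩, h4⟩ := h
  have hpos : 0 < 3 * F.n := by have := hF.n2; omega
  refine ⟨rl.length, fun t => if ht : t < rl.length then ⟨getN rl t, h1 t ht⟩ else ⟨0, hpos⟩,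
    fun t => getB ul t, fun j => getN tl j, ?_⟩
  have hr : ∀ t (ht : t < rl.length), (if ht : t < rl.length then
      (⟨getN rl t, h1 t ht⟩ : Fin (3 * F.n)) else ⟨0, hpos⟩) = ⟨getN rl t, h1 t ht⟩ := by
    intro t ht
    rw [dif_pos ht]
  refine ⟨?_, ?_, ?_, ?_, ?_, ?_, ?_⟩
  · intro t ht j
    have ht' : t < rl.length := by omega
    rw [hr t ht']
    intro hq
    have h5 := (h2 t ht').resolve_left (by omega)
    have h6 : getN rl t = d6 F.Q j := congrArg Fin.val hq
    have h7 := (hF.q j j.2).2
    rw [← h6, h5.1] at h7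
    omega
  · intro t ht
    have ht' : t < rl.length := by omega
    rw [hr t ht', hr (t + 1) ht]
    have h5 := ((h2 t ht').resolve_left (by omega)).2
    cases hu : getB ul (t + 1) with
    | true =>
      rw [hu] at h5
      simp only [cond_true] at h5
      rw [if_pos rfl]
      exact Fin.ext h5
    | false =>
      rw [hu] at h5
      simp only [cond_false] at h5
      rw [if_neg (by simp)]
      exact Fin.ext h5
  · intro j
    obtain ⟨h5, h6, h7, h8⟩ := h3 j j.2
    rw [hr _ h7]
    exact Fin.ext h5
  · intro j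
    exact (h3 j j.2).2.1
  · intro j
    exact (h3 j j.2).2.2.1
  · intro i j hij
    exact (h3 j j.2).2.2.2 i hij
  · intro t t' ht ht' hv
    rw [hr t ht, hr t' ht'] at hv
    have hdiv : getN rl t' / 3 = getN rl t / 3 := by
      have hnx : ∀ x, nx x / 3 = x / 3 := by
        intro x
        have h1 : nx x = 3 * (x / 3) + (x % 3 + 1) % 3 := rfl
        omega
      rcases hv with h | h | h
      · have h5 := congrArg Fin.val h
        simp only at h5
        rw [h5]
      · have h5 : getN rl t' = nx (getN rl t) := congrArg Fin.val h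
        rw [h5, hnx]
      · have h5 : getN rl t' = nx (nx (getN rl t)) := congrArg Fin.val h
        rw [h5, hnx, hnx]
    by_contra hne
    rcases lt_or_gt_of_ne hne with h | h
    · exact h4 t ht t' h hdiv.symm
    · exact h4 t' ht' t h hdiv

def ringA : List ℕ := [21, 24, 27, 30, 33, 36, 39, 42, 45, 48, 51, 54, 57, 60, 63, 67, 71, 74, 77]
def ringAu : List Bool := [true, true, false, false, true, false, false, true, false, false, true,
  false, false, true, false, true, false, false, false]
def ringAt : List ℕ := [2, 3, 5, 6, 8, 9, 11, 12, 14, 16, 17, 18]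

/-- the code has the edges of the configuration `A` -/
def okEdges (F : Code) : Bool :=
  allN (fun x => decide (d4 F.P x ≠ 0) || (edgesA.contains (x, d6 F.E x) ||
    edgesA.contains (d6 F.E x, x))) 78

theorem noA_of (F : Code) (hF : CodeOK F) (hn26 : F.n = 26)
    (hR : okRing F ringA ringAu ringAt = true) (hE : okEdges F = true)
    (hD : Data (piece F hF) → False) : NoA := by
  intro D _ M γ hp hT h4 d h6 h0 hn hX hnd
  have hN : Nice M := Nice.of hp γ hT h4
  have hinj := injA hN d h6 h0 hn hX hnd
  have hed := edgesA_ok d h6 h0 hn hX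
  obtain ⟨E⟩ := emb_mk F hF (bsA M d) (by rw [hn26]; exact hinj) (by
    rw [hn26]
    intro x hx hP
    unfold okEdges at hE
    rw [allN_iff] at hE
    have h1 := hE x (by omega)
    simp only [Bool.or_eq_true, decide_eq_true_eq, List.contains_iff_mem] at h1
    rcases h1 with h1 | h1 | h1
    · exact absurd hP h1
    · exact hed _ h1
    · have h2 := hed _ h1
      simp only at h2
      rw [h2, M.a2])
  obtain ⟨R, r, u, τ, hRing⟩ := ring_of_list F hF _ _ _ hR
  have : Nonempty (Fin (3 * F.n)) := ⟨⟨0, by omega⟩⟩
  obtain ⟨Dt⟩ := exists_data E hp γ hT hRing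
  exact hD Dt

end Pool.Agent.Helper17.CT
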