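import Pool.Agent.Helper17.DF.Fast

set_option autoImplicit false

/-!
Compact coding of the data of the checks (tables, tries and long numbers).
-/

namespace Pool.Agent.Helper17.CT

/-- one optional child of a table -/
noncomputable def chT (ih : (TT → ℕ → TT) → ℕ → TT) (b : Bool) (K : TT → ℕ → TT) (n : ℕ) : TT :=
  Bool.rec (K .nil n) (ih K n) b

/-- table of depth `d` in preorder: four bits for the children, values of `wd` bits -/
noncomputable def decT (wd d : ℕ) : (TT → ℕ → TT) → ℕ → TT :=
  Nat.rec (fun K n => K (.leaf (Nat.mod n (Nat.shiftLeft 1 wd))) (Nat.shiftRight n wd))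
    (fun _ ih K n => chT ih (tb n 0) (fun u n1 => chT ih (tb n 1) (fun o n2 => chT ih (tb n 2)
      (fun s n3 => chT ih (tb n 3) (fun e n4 => K (.node u o s e) n4) n3) n2) n1)
      (Nat.shiftRight n 4)) d

/-- the table coded by the number `n` -/
noncomputable def tT (wd d n : ℕ) : TT := decT wd d (fun T _ => T) n

noncomputable def chB (ih : (BT → ℕ → BT) → ℕ → BT) (b : Bool) (K : BT → ℕ → BT) (n : ℕ) : BT :=
  Bool.rec (K .nil n) (ih K n) b

/-- trie of depth `d` in preorder: three bits for the children -/
noncomputable def decB (d : ℕ) : (BT → ℕ → BT) → ℕ → BT :=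
  Nat.rec (fun K n => K .leaf n)
    (fun _ ih K n => chB ih (tb n 0) (fun u n1 => chB ih (tb n 1) (fun o n2 => chB ih (tb n 2)
      (fun c n3 => K (.node u o c) n3) n2) n1) (Nat.shiftRight n 3)) d

/-- the trie coded by the number `n` -/
noncomputable def tB (d n : ℕ) : BT := decB d (fun C _ => C) n

/-- a long number from its blocks of `w` bits -/
noncomputable def cat (w : ℕ) (l : List ℕ) : ℕ :=
  List.rec 0 (fun a _ ih => Nat.lor a (Nat.shiftLeft ih w)) l

end Pool.Agent.Helper17.CT
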