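import Pool.Agent.Helper17.CT.Check

set_option autoImplicit false

/-!
Faster versions of the finite checks of `Check.lean`, written with recursors, for the evaluation by
the kernel.
-/

namespace Pool.Agent.Helper17.CT

/-- stack of open ports with their class sets -/
inductive St where
  | nil
  | cons (q x : ℕ) (s : St)

/-- tries of non-crossing pairings -/
inductive BT where
  | nil
  | leaf
  | node (u o c : BT)

def BT.u : BT → BT
  | .node u _ _ => u
  | _ => .nil
def BT.o : BT → BT
  | .node _ o _ => o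
  | _ => .nil
def BT.c : BT → BT
  | .node _ _ c => c
  | _ => .nil

def BT.isLeaf : BT → Bool
  | .leaf => true
  | _ => false

/-- A system record: dart mask, dart mask spread to two bits per dart, used ports, pairing, trie of
the outer pairings that need a table value. -/
structure Sz where
  T : ℕ
  Ts : ℕ
  U : ℕ
  m : ℕ
  C : BT

/-- search tree for systems, keyed by bits of the spread mask -/
inductive Tri2 where
  | leaf (l : List Sz)
  | node (l r : Tri2)

def Tri2.all (g : Sz → Bool) : Tri2 → Bool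
  | .leaf l => allL g l
  | .node l r => and (Tri2.all g l) (Tri2.all g r)

/-- list of class sets: used, class, port, `p <<< 4 p`, remaining number of ports -/
inductive UX where
  | nil
  | cons (u x p sp r : ℕ) (s : UX)

noncomputable def andR (x y : Bool) : Bool := Bool.rec false y x
noncomputable def orR (x y : Bool) : Bool := Bool.rec y true x

noncomputable def allLR {α : Type} (g : α → Bool) (l : List α) : Bool :=
  List.rec true (fun a _ ih => andR (g a) ih) l

noncomputable def anyLR {α : Type} (g : α → Bool) (l : List α) : Bool :=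
  List.rec false (fun a _ ih => orR (g a) ih) l

noncomputable def allNR (g : ℕ → Bool) (n : ℕ) : Bool :=
  Nat.rec true (fun f ih => andR (g f) ih) n

/-- path following; the continuation `K` gets the final port and the visited vertices -/
noncomputable def trR (F : Code) (u : ℕ → Bool) (K : ℕ → ℕ → Bool) (f : ℕ) : ℕ → ℕ → Bool :=
  Nat.rec (fun _ _ => false)
    (fun _ ih x cov =>
      (fun y cov' => Nat.rec (ih (d6 F.E y) cov') (fun j _ => K j cov') (d4 F.P y))
          (Bool.rec (nx (nx x)) (nx x) (u (nx x))) (Nat.lor cov (Nat.shiftLeft 1 (Nat.div x 3)))) f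

/-- all ports; continuation `K m cov` -/
noncomputable def trsR (F : Code) (u : ℕ → Bool) (K : ℕ → ℕ → Bool) (f : ℕ) : ℕ → ℕ → ℕ → Bool :=
  Nat.rec (fun _ m cov => K m cov)
    (fun _ ih j m cov =>
      Bool.rec (ih (Nat.succ j) (Nat.lor m (Nat.shiftLeft j (Nat.mul 4 j))) cov)
        (trR F u (fun j' cov' => ih (Nat.succ j) (Nat.lor m (Nat.shiftLeft j' (Nat.mul 4 j))) cov') F.n
          (d6 F.Q j) cov)
      (u (d6 F.Q j))) f

noncomputable def okSyR (F : Code) (s : Sy) : Bool :=
  andR (allNR (fun v => (fun x =>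
      (fun p q r => Bool.rec (andR q r) (Bool.rec r (not r) q) p) (tb s.T x) (tb s.T (Nat.succ x)) (tb s.T (Nat.succ (Nat.succ x)))) (Nat.mul 3 v)) F.n)
  (andR (allNR (fun x => Bool.rec (Bool.rec (not (tb s.T x)) (tb s.T x) (tb s.U (Nat.pred (d4 F.P x))))
      (Bool.rec (not (tb s.T x)) (tb s.T x) (tb s.T (d6 F.E x))) (Nat.beq (d4 F.P x) 0))
       (Nat.mul 3 F.n))
   (trsR F (fun x => tb s.T x) (fun m cov => andR (Nat.beq m s.m) (andR (Nat.beq cov (Nat.pred (Nat.shiftLeft 1 F.n)))
        (andR (not (Nat.beq s.U 0)) (andR (Nat.beq (Nat.shiftRight s.U F.k) 0)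
          (Nat.beq (Nat.shiftRight s.T (Nat.mul 3 F.n)) 0))))) F.k 0 0 0))

noncomputable def incovR (F : Code) (G i : ℕ) : Bool :=
  trsR F (fun x => not (Nat.beq (d2 G x) i)) (fun _ cov => not (Nat.beq cov (Nat.pred (Nat.shiftLeft 1 F.n)))) F.k 0 0 0

noncomputable def enumR (F : Code) (test : ℕ → Bool) (f : ℕ) : ℕ → ℕ → Bool :=
  Nat.rec (fun _ G => test G)
    (fun _ ih v G =>
      allLR (fun π => Bool.rec true (ih (Nat.succ v) (Nat.add G (Nat.shiftLeft π (Nat.mul 6 v))))
         (andR (okD F G v (Nat.mul 3 v) (d2 π 0))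
        (andR (okD F G v (Nat.add (Nat.mul 3 v) 1) (d2 π 1))
          (okD F G v (Nat.add (Nat.mul 3 v) 2) (d2 π 2))))) perms6) f

noncomputable def getR (Ts : ℕ) (t : Tri2) : List ℕ → List Sz :=
  Tri2.rec (fun l _ => l) (fun _ _ il ir qs =>
    List.rec [] (fun q qs' _ => Bool.rec (il qs') (ir qs') (tb Ts q)) qs) t

/-- find the record of the mask, continuation `K`, otherwise `e` -/
noncomputable def findR (Ts : ℕ) (e : Bool) (K : BT → Bool) (l : List Sz) : Bool :=
  List.rec e (fun s _ ih => Bool.rec ih (K s.C) (Nat.beq s.Ts Ts)) l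

/-- the table values for the pairings in `C` are put in front of the list; `false` if a value is
missing. -/
noncomputable def valsL (F : Code) (G : ℕ) (C : BT) :
    ℕ → List ℕ → TT → (List ℕ → Bool) → List ℕ → Bool :=
  BT.rec (fun _ _ _ K acc => K acc)
    (fun _ _ T K acc => TT.rec false (fun w => K (w :: acc)) (fun _ _ _ _ _ _ _ _ => false) T)
    (fun _ _ _ iu io ic p st T K acc =>
      iu (Nat.succ p) st T.u (fun acc => io (Nat.succ p) (p :: st) T.o (fun acc =>
        List.rec (K acc) (fun q st' _ => ic (Nat.succ p) st'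
          (Bool.rec T.d T.s (Nat.beq (d2 G (d6 F.Q p)) (d2 G (d6 F.Q q)))) K acc) st) acc) acc) C

noncomputable def nozeroR (l0 l1 l2 : List ℕ) : Bool :=
  allLR (fun x => allLR (fun y => allLR (fun z =>
    not (Nat.beq (Nat.xor x y) z)) l2) l1) l0

noncomputable def okCol2R (F : Code) (S2 : Tri2) (qs : List ℕ) (M : ℕ) (T : TT) (G : ℕ) : Bool :=
  (fun a b => (fun m0 m1 m2 =>
    findR m0 (incovR F G 0) (fun C0 =>
      findR m1 (incovR F G 1) (fun C1 =>
        findR m2 (incovR F G 2) (fun C2 =>
          valsL F G C0 0 [] T (fun l0 => valsL F G C1 0 [] T (fun l1 => valsL F G C2 0 [] T (fun l2 => nozeroR l0 l1 l2) []) []) [])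
          (getR m2 S2 qs)) (getR m1 S2 qs)) (getR m0 S2 qs))
      (Nat.lor a b) (Nat.xor M a) (Nat.xor M b))
    (Nat.land G M) (Nat.land (Nat.shiftRight G 1) M)

noncomputable def cstR (F : Code) (G : ℕ) (n : ℕ) : Bool :=
  Nat.rec true (fun f ih => andR (Nat.beq (d2 G (d6 F.Q f)) (d2 G (d6 F.Q 0))) ih) n

/-- the check of one colouring -/
noncomputable def okG2R (F : Code) (S : Tri') (S2 : Tri2) (qs : List ℕ) (M : ℕ) (T : TT) (G : ℕ) :
    Bool :=
  Bool.rec (Bool.rec (okCol2R F S2 qs M T G)
      (match d2 G (d6 F.Q 0) with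
        | 0 => okCst F S G 0 1 2
        | 1 => okCst F S G 1 0 2
        | _ => okCst F S G 2 0 1)
     (cstR F G F.k))
    (or (loopy F G 0) (or (loopy F G 1) (loopy F G 2))) (Nat.beq F.k 0)

/-- true iff the orbit of `x0` under `b ∘ m` closes within the fuel and visits exactly `U`;
`e` is the answer if the fuel is exhausted -/
noncomputable def orbR (e : Bool) (m b x0 U : ℕ) (f : ℕ) : ℕ → ℕ → Bool :=
  Nat.rec (fun _ _ => e)
    (fun _ ih x acc =>
      (fun y => (fun z acc' => Bool.rec (ih z acc') (Nat.beq acc' U) (Nat.beq z x0))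
        (d4 b y) (Nat.lor (Nat.lor acc (Nat.shiftLeft 1 x)) (Nat.shiftLeft 1 y))) (d4 m x)) f

noncomputable def singR (e : Bool) (k m b U : ℕ) : Bool :=
  orbR e m b (Nat.log2 U) U k (Nat.log2 U) 0

noncomputable def blkR (k U b : ℕ) (l : List Sy) : Bool :=
  List.rec false (fun s _ ih => orR (andR (Nat.beq s.U U) (singR false k s.m b U)) ih) l

noncomputable def dupR (k T U b : ℕ) (l : List Sy) : Bool :=
  List.rec false (fun s _ ih =>
    orR (andR (andR (Nat.beq s.U U) (not (Nat.beq s.T T))) (singR false k s.m b U)) ih) l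

/-- every non-crossing pairing that forms a single cycle with the system `(T, U, m)` and is not
closed by another system is in the trie -/
noncomputable def okBR (k : ℕ) (SU : List Sy) (T U m : ℕ) (f : ℕ) :
    ℕ → List ℕ → ℕ → ℕ → ℕ → BT → Bool :=
  Nat.rec (fun _ _ _ _ B C => orR C.isLeaf (orR (not (singR true k m B U)) (dupR k T U B SU)))
    (fun _ ih p st h r B C =>
      Bool.rec
        (ih (Nat.succ p) st h r (Nat.lor B (Nat.shiftLeft p (Nat.mul 4 p))) C.u)
        (andR (Bool.rec true (ih (Nat.succ p) (p :: st) (Nat.succ h) (Nat.pred r) B C.o)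
            (Nat.ble (Nat.succ h) (Nat.pred r)))
          (List.rec true (fun q st' _ =>
             ih (Nat.succ p) st' (Nat.pred h) (Nat.pred r)
               (Nat.lor B (Nat.lor (Nat.shiftLeft p (Nat.mul 4 q))
                  (Nat.shiftLeft q (Nat.mul 4 p)))) C.c) st))
        (tb U p)) f

/-- the record is listed -/
noncomputable def memR (s : Sz) (l : List Sy) : Bool :=
  List.rec false (fun s' _ ih =>
    orR (andR (Nat.beq s'.U s.U) (andR (Nat.beq s'.T s.T) (Nat.beq s'.m s.m))) ih) l

noncomputable def okSzR (F : Code) (S : Tri') (s : Sz) : Bool :=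
   (fun l => andR (memR s l)
     (andR (allNR (fun x => Bool.rec (not (tb s.Ts (Nat.mul 2 x))) (tb s.Ts (Nat.mul 2 x))
        (tb s.T x)) (Nat.mul 3 F.n))
      (okBR F.k l s.T s.U s.m F.k 0 [] 0 (popc s.U F.k) 0 s.C))) (S.get s.U 0)

noncomputable def zeroR (T : TT) : Bool :=
  TT.rec true (fun w => Nat.beq w 0) (fun _ _ _ _ u o s d => andR u (andR o (andR s d))) T

noncomputable def foldR (wd t : ℕ) : ℕ → ℕ :=
  Nat.rec (fun x => Nat.mod x (Nat.shiftLeft 1 wd))
    (fun t ih x => ih (Nat.xor x (Nat.shiftRight x (Nat.mul wd (Nat.shiftLeft 1 t))))) t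

/-- the recursion over the ports that checks all non-crossing states; the item set `L` only
contains items with nonzero weight, `h` is the height of the stack. -/
noncomputable def GG4 (k : ℕ) (S : Tri') (wd t : ℕ) (ux : UX) :
    ℕ → St → ℕ → ℕ → ℕ → TT → Bool :=
  UX.rec (fun _ st U B L T => Bool.rec
      (St.rec ((fun w => andR (TT.rec true (fun w' => Nat.beq w' w)
          (fun _ _ _ _ _ _ _ _ => true) T)
        (orR (Nat.beq w 0) (blkR k U B (S.get U 0)))) (foldR wd t L)) (fun _ _ _ _ => true) st)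
      (zeroR T) (Nat.beq L 0))
    (fun u x p sp r _ ih h st U B L T =>
      Bool.rec (Bool.rec (zeroR T)
      ((fun L1 => (fun Tu To Ts Td =>
            andR (ih h st U (Nat.lor B sp) (Nat.xor L L1) Tu)
             (andR (ih (Nat.succ h) (.cons p x st) (Nat.lor U (Nat.shiftLeft 1 p)) B L1 To)
              (St.rec true (fun q y st' _ => (fun Ld =>
                    (fun U' B' => andR (ih (Nat.pred h) st' U' B' (Nat.xor L1 Ld) Ts)
                        (ih (Nat.pred h) st' U' B' Ld Td))
                      (Nat.lor U (Nat.shiftLeft 1 p))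
                      (Nat.lor B (Nat.lor (Nat.shiftLeft p (Nat.mul 4 q))
                      (Nat.shiftLeft q (Nat.mul 4 p))))) (Nat.land L1 (Nat.xor x y))) st)))
              T.u T.o T.s T.d) (Nat.land L u)) (Nat.ble h r))
      (zeroR T) (Nat.beq L 0)) ux

/-- the class sets of the certificate, restricted to the items of nonzero weight -/
noncomputable def mkUX (W B : ℕ) (K1 : List ℕ) : List ℕ → ℕ → ℕ → UX :=
  List.rec (fun _ _ _ => .nil) (fun k1 _ ih K2 p r =>
    List.rec .nil (fun k2 K2' _ => .cons (Nat.land (usOf B k1 k2) W) (Nat.land (xsOf B k1 k2) W) p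
      (Nat.shiftLeft p (Nat.mul 4 p)) r (ih K2' (Nat.succ p) (Nat.pred r))) K2) K1

noncomputable def runG4 (F : Code) (S : Tri') (Ct : Cert) (T : TT) : Bool :=
  GG4 F.k S Ct.wd Ct.t (mkUX Ct.W Ct.B Ct.K1 Ct.K2 0 F.k) 0 .nil 0 0
    (Nat.land (Nat.pred (Nat.shiftLeft 1 (Nat.mul 3 Ct.B))) Ct.W) T

/-- the mask `M` has the bits `2 x`, `x < 3 n` -/
def okM (F : Code) (M : ℕ) : Bool := allN (fun x => tb M (Nat.mul 2 x)) (Nat.mul 3 F.n)

end Pool.Agent.Helper17.CT
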