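import Pool.Agent.Helper17.CT.Wheel

set_option autoImplicit false

/-!
Geometry of cyclically 4-edge-connected plane cubic maps: definitions for the class theorem with
long faces far apart.
-/

namespace Pool.Agent.Helper17.CT
open Function

/-- the facts about a map that the face geometry needs -/
structure Nice {D : Type} (M : CMap D) : Prop where
  pl : M.Planar
  con : M.Con3
  c4 : M.Cyc4
  nfa : ∀ d, ¬ M.Face d (M.a d)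

lemma Nice.of {D : Type} [Finite D] {M : CMap D} (hp : M.Planar) (γ : D → Fin 3) (hT : M.Tri γ)
    (h4 : M.Cyc4) : Nice M :=
  ⟨hp, con3_of_tri M γ hT, h4, fun d => not_face_a M hp γ hT d⟩

/-- the mirror image -/
def CMap.mirror {D : Type} (M : CMap D) : CMap D where
  s := fun d => M.s (M.s d)
  a := M.a
  s3 := fun d => by rw [M.s3, M.s3]
  s1 := fun d h => M.s1 d (by
    have h' : M.s (M.s d) = d := h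
    have h3 := M.s3 d
    rw [h'] at h3
    exact h3)
  a2 := M.a2
  a1 := M.a1

/-- base darts of the vertices of the configuration `A`: the wheel with hub length 6 and neighbour
lengths 5, 6, 6, 6, 6, 6 with one more hexagon attached. -/
def idxA : List (ℕ × ℕ) := [(0, 2), (0, 3), (1, 2), (1, 3), (1, 4), (2, 2), (2, 3), (2, 4), (3, 2),
  (3, 3), (3, 4), (4, 2), (4, 3), (4, 4), (5, 2), (5, 3), (5, 4)]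

def bsA {D : Type} (M : CMap D) (d : D) (v : ℕ) : D :=
  if v < 6 then (M.f)^[v] d
  else if v < 23 then (M.f)^[(getP idxA (v - 6)).2] (M.a ((M.f)^[(getP idxA (v - 6)).1] d))
  else M.s ((M.f)^[v - 20] (M.a ((M.f)^[2] (M.a d))))

/-- the edges of the configuration `A` (darts `3 v + r`) -/
def edgesA : List (ℕ × ℕ) := [(0, 5), (1, 20), (2, 15), (3, 8), (4, 26), (6, 11), (7, 35), (9, 14), (10, 44), (12,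
  17), (13, 53), (16, 62), (18, 23), (19, 66), (21, 25), (22, 77), (24, 29), (27, 32),
  (30, 34), (33, 38), (36, 41), (39, 43), (42, 47), (45, 50), (48, 52), (51, 56), (54,
  59), (57, 61), (60, 65), (63, 68), (67, 70), (71, 73), (74, 76)]

/-- the list of excluded wheels up to rotation and reflection: hub length 4 or 5 with all
neighbours of length at most 6; hub length 6 with all neighbours of length at most 6, among them a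
4-face or two 5-faces. -/
def bra : List (ℕ × List ℕ) := [
  (4, [4, 4, 4, 4]),
  (4, [4, 4, 4, 5]),
  (4, [4, 4, 4, 6]),
  (4, [4, 4, 5, 5]),
  (4, [4, 4, 5, 6]),
  (4, [4, 4, 6, 6]),
  (4, [4, 5, 4, 5]),
  (4, [4, 5, 4, 6]),
  (4, [4, 5, 5, 5]),
  (4, [4, 5, 5, 6]),
  (4, [4, 5, 6, 5]),
  (4, [4, 5, 6, 6]),
  (4, [4, 6, 4, 6]),
  (4, [4, 6, 5, 6]),
  (4, [4, 6, 6, 6]),
  (4, [5, 5, 5, 5]),
  (4, [5, 5, 5, 6]),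
  (4, [5, 5, 6, 6]),
  (4, [5, 6, 5, 6]),
  (4, [5, 6, 6, 6]),
  (4, [6, 6, 6, 6]),
  (5, [4, 4, 4, 4, 4]),
  (5, [4, 4, 4, 4, 5]),
  (5, [4, 4, 4, 4, 6]),
  (5, [4, 4, 4, 5, 5]),
  (5, [4, 4, 4, 5, 6]),
  (5, [4, 4, 4, 6, 6]),
  (5, [4, 4, 5, 4, 5]),
  (5, [4, 4, 5, 4, 6]),
  (5, [4, 4, 5, 5, 5]),
  (5, [4, 4, 5, 5, 6]),
  (5, [4, 4, 5, 6, 5]),
  (5, [4, 4, 5, 6, 6]),
  (5, [4, 4, 6, 4, 6]),
  (5, [4, 4, 6, 5, 6]),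
  (5, [4, 4, 6, 6, 6]),
  (5, [4, 5, 4, 5, 5]),
  (5, [4, 5, 4, 5, 6]),
  (5, [4, 5, 4, 6, 6]),
  (5, [4, 5, 5, 4, 6]),
  (5, [4, 5, 5, 5, 5]),
  (5, [4, 5, 5, 5, 6]),
  (5, [4, 5, 5, 6, 5]),
  (5, [4, 5, 5, 6, 6]),
  (5, [4, 5, 6, 4, 6]),
  (5, [4, 5, 6, 5, 6]),
  (5, [4, 5, 6, 6, 5]),
  (5, [4, 5, 6, 6, 6]),
  (5, [4, 6, 4, 6, 6]),
  (5, [4, 6, 5, 5, 6]),
  (5, [4, 6, 5, 6, 6]),
  (5, [4, 6, 6, 6, 6]),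
  (5, [5, 5, 5, 5, 5]),
  (5, [5, 5, 5, 5, 6]),
  (5, [5, 5, 5, 6, 6]),
  (5, [5, 5, 6, 5, 6]),
  (5, [5, 5, 6, 6, 6]),
  (5, [5, 6, 5, 6, 6]),
  (5, [5, 6, 6, 6, 6]),
  (5, [6, 6, 6, 6, 6]),
  (6, [4, 4, 4, 4, 4, 4]),
  (6, [4, 4, 4, 4, 4, 5]),
  (6, [4, 4, 4, 4, 4, 6]),
  (6, [4, 4, 4, 4, 5, 5]),
  (6, [4, 4, 4, 4, 5, 6]),
  (6, [4, 4, 4, 4, 6, 6]),
  (6, [4, 4, 4, 5, 4, 5]),
  (6, [4, 4, 4, 5, 4, 6]),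
  (6, [4, 4, 4, 5, 5, 5]),
  (6, [4, 4, 4, 5, 5, 6]),
  (6, [4, 4, 4, 5, 6, 5]),
  (6, [4, 4, 4, 5, 6, 6]),
  (6, [4, 4, 4, 6, 4, 6]),
  (6, [4, 4, 4, 6, 5, 6]),
  (6, [4, 4, 4, 6, 6, 6]),
  (6, [4, 4, 5, 4, 4, 5]),
  (6, [4, 4, 5, 4, 4, 6]),
  (6, [4, 4, 5, 4, 5, 5]),
  (6, [4, 4, 5, 4, 5, 6]),
  (6, [4, 4, 5, 4, 6, 5]),
  (6, [4, 4, 5, 4, 6, 6]),
  (6, [4, 4, 5, 5, 4, 6]),
  (6, [4, 4, 5, 5, 5, 5]),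
  (6, [4, 4, 5, 5, 5, 6]),
  (6, [4, 4, 5, 5, 6, 5]),
  (6, [4, 4, 5, 5, 6, 6]),
  (6, [4, 4, 5, 6, 4, 6]),
  (6, [4, 4, 5, 6, 5, 6]),
  (6, [4, 4, 5, 6, 6, 5]),
  (6, [4, 4, 5, 6, 6, 6]),
  (6, [4, 4, 6, 4, 4, 6]),
  (6, [4, 4, 6, 4, 5, 6]),
  (6, [4, 4, 6, 4, 6, 6]),
  (6, [4, 4, 6, 5, 5, 6]),
  (6, [4, 4, 6, 5, 6, 6]),
  (6, [4, 4, 6, 6, 6, 6]),
  (6, [4, 5, 4, 5, 4, 5]),
  (6, [4, 5, 4, 5, 4, 6]),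
  (6, [4, 5, 4, 5, 5, 5]),
  (6, [4, 5, 4, 5, 5, 6]),
  (6, [4, 5, 4, 5, 6, 5]),
  (6, [4, 5, 4, 5, 6, 6]),
  (6, [4, 5, 4, 6, 4, 6]),
  (6, [4, 5, 4, 6, 5, 6]),
  (6, [4, 5, 4, 6, 6, 6]),
  (6, [4, 5, 5, 4, 5, 5]),
  (6, [4, 5, 5, 4, 5, 6]),
  (6, [4, 5, 5, 4, 6, 6]),
  (6, [4, 5, 5, 5, 4, 6]),
  (6, [4, 5, 5, 5, 5, 5]),
  (6, [4, 5, 5, 5, 5, 6]),
  (6, [4, 5, 5, 5, 6, 5]),
  (6, [4, 5, 5, 5, 6, 6]),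
  (6, [4, 5, 5, 6, 4, 6]),
  (6, [4, 5, 5, 6, 5, 5]),
  (6, [4, 5, 5, 6, 5, 6]),
  (6, [4, 5, 5, 6, 6, 5]),
  (6, [4, 5, 5, 6, 6, 6]),
  (6, [4, 5, 6, 4, 5, 6]),
  (6, [4, 5, 6, 4, 6, 5]),
  (6, [4, 5, 6, 4, 6, 6]),
  (6, [4, 5, 6, 5, 4, 6]),
  (6, [4, 5, 6, 5, 5, 6]),
  (6, [4, 5, 6, 5, 6, 5]),
  (6, [4, 5, 6, 5, 6, 6]),
  (6, [4, 5, 6, 6, 4, 6]),
  (6, [4, 5, 6, 6, 5, 6]),
  (6, [4, 5, 6, 6, 6, 5]),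
  (6, [4, 5, 6, 6, 6, 6]),
  (6, [4, 6, 4, 6, 4, 6]),
  (6, [4, 6, 4, 6, 5, 6]),
  (6, [4, 6, 4, 6, 6, 6]),
  (6, [4, 6, 5, 5, 5, 6]),
  (6, [4, 6, 5, 5, 6, 6]),
  (6, [4, 6, 5, 6, 5, 6]),
  (6, [4, 6, 5, 6, 6, 6]),
  (6, [4, 6, 6, 4, 6, 6]),
  (6, [4, 6, 6, 5, 6, 6]),
  (6, [4, 6, 6, 6, 6, 6]),
  (6, [5, 5, 5, 5, 5, 5]),
  (6, [5, 5, 5, 5, 5, 6]),
  (6, [5, 5, 5, 5, 6, 6]),
  (6, [5, 5, 5, 6, 5, 6]),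
  (6, [5, 5, 5, 6, 6, 6]),
  (6, [5, 5, 6, 5, 5, 6]),
  (6, [5, 5, 6, 5, 6, 6]),
  (6, [5, 5, 6, 6, 6, 6]),
  (6, [5, 6, 5, 6, 5, 6]),
  (6, [5, 6, 5, 6, 6, 6]),
  (6, [5, 6, 6, 5, 6, 6])]

/-- the face of `e` has a long neighbour across `e`, and no other long face within distance two -/
structure Far {D : Type} (M : CMap D) (e : D) : Prop where
  long : 7 ≤ minimalPeriod M.f (M.a e)
  far : ∀ j k, 7 ≤ minimalPeriod M.f (M.a ((M.f)^[k] (M.a ((M.f)^[j] e)))) →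
    M.Face (M.a e) (M.a ((M.f)^[k] (M.a ((M.f)^[j] e))))

/-- the configuration `A` (hub `d`, its face of length six, neighbours of lengths
`5, 6, 6, 6, 6, 6`, and the face across the second edge of the pentagon of length six) does not
occur, unless it is degenerate. -/
def NoA : Prop :=
  ∀ (D : Type) [Finite D] (M : CMap D) (γ : D → Fin 3), M.Planar → M.Tri γ → M.Cyc4 →
    ∀ d : D, minimalPeriod M.f d = 6 → minimalPeriod M.f (M.a d) = 5 →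
    (∀ i, 1 ≤ i → i < 6 → minimalPeriod M.f (M.a ((M.f)^[i] d)) = 6) →
    minimalPeriod M.f (M.a ((M.f)^[2] (M.a d))) = 6 →
    (∀ i, (i = 2 ∨ i = 3) → ∀ x, M.Face (M.a ((M.f)^[i] d)) x →
      ¬ M.Face (M.a ((M.f)^[2] (M.a d))) (M.a x)) → False

end Pool.Agent.Helper17.CT
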