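import Pool.Agent.Helper14.DF.F1
import Pool.Agent.Helper24.DF.RunG4
import Pool.Agent.Helper71.DF.Col2
import Pool.Agent.Helper86.DF.EnumR

set_option autoImplicit false

/-! Assembly of the fast checker. -/

namespace Pool.Agent.Helper17.CT

theorem no_data4 (F : Code) (S : Tri') (S2 : Tri2) (qs : List ℕ) (M : ℕ) (Ct : Cert)
    (T : TT) (hF : okCode F = true) (hS : Tri'.all (okSyR F) S = true)
    (hZ : Tri2.all (okSzR F S) S2 = true) (hM : okM F M = true) (hC : okCert Ct F.k = true)
    (hG : runG4 F S Ct T = true)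
    (hE : enumR F (okG2R F S S2 qs M T) (Nat.pred F.n) 1 36 = true) :
    Data (piece F (CodeOK.of hF)) → False := by
  have hS' : Tri'.all (okSy F) S = true := by
    have h : okSyR F = okSy F := funext (okSyR_eq F)
    rw [← h]; exact hS
  exact no_data F S Ct T (CodeOK.of hF) hS' hC (runG4_sound F S Ct T hC hG)
    (enumR_imp F _ _ (fun G hG h => okG2R_sound F (CodeOK.of hF) S S2 qs M T hS' hZ hM G hG h) hE)

theorem good_mk4 {F : Code} (S : Tri') (S2 : Tri2) (qs : List ℕ) (M : ℕ) (Ct : Cert)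
    (T : TT) (c : ℕ) (ns : List ℕ)
    (hc : F.c = c) (hns : F.ns = ns) (hF : okCode F = true) (hI : okIdx F = true)
    (hS : Tri'.all (okSyR F) S = true)
    (hZ : Tri2.all (okSzR F S) S2 = true) (hM : okM F M = true) (hC : okCert Ct F.k = true)
    (hG : runG4 F S Ct T = true)
    (hE : enumR F (okG2R F S S2 qs M T) (Nat.pred F.n) 1 36 = true) : Good c ns :=
  ⟨F, CodeOK.of hF, hc, hns, hI, no_data4 F S S2 qs M Ct T hF hS hZ hM hC hG hE⟩

end Pool.Agent.Helper17.CT
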