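import Pool.Agent.Helper17.DF.Data.W1
import Pool.Agent.Helper17.DF.Data.W2
import Pool.Agent.Helper17.DF.Data.W3
import Pool.Agent.Helper17.DF.Data.W4
import Pool.Agent.Helper17.DF.Data.W5
import Pool.Agent.Helper17.DF.Data.W6
import Pool.Agent.Helper17.DF.Data.W7
import Pool.Agent.Helper17.DF.Data.W8
import Pool.Agent.Helper17.DF.Data.W9
import Pool.Agent.Helper17.DF.Data.W10
import Pool.Agent.Helper17.DF.Geo

set_option autoImplicit false
set_option linter.all false
set_option maxRecDepth 100000

namespace Pool.Agent.Helper17.CT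

lemma gcons {c : ℕ} {ns : List ℕ} {l : List (ℕ × List ℕ)} (h : Good c ns)
    (hl : ∀ p ∈ l, Good p.1 p.2) : ∀ p ∈ (c, ns) :: l, Good p.1 p.2 :=
  List.forall_mem_cons.2 ⟨h, hl⟩

theorem bra_good : ∀ p ∈ bra, Good p.1 p.2 :=
  gcons b4_4444_good <|
  gcons b4_4445_good <|
  gcons b4_4446_good <|
  gcons b4_4455_good <|
  gcons b4_4456_good <|
  gcons b4_4466_good <|
  gcons b4_4545_good <|
  gcons b4_4546_good <|
  gcons b4_4555_good <|
  gcons b4_4556_good <|
  gcons b4_4565_good <|
  gcons b4_4566_good <|
  gcons b4_4646_good <|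
  gcons b4_4656_good <|
  gcons b4_4666_good <|
  gcons b4_5555_good <|
  gcons b4_5556_good <|
  gcons b4_5566_good <|
  gcons b4_5656_good <|
  gcons b4_5666_good <|
  gcons b4_6666_good <|
  gcons b5_44444_good <|
  gcons b5_44445_good <|
  gcons b5_44446_good <|
  gcons b5_44455_good <|
  gcons b5_44456_good <|
  gcons b5_44466_good <|
  gcons b5_44545_good <|
  gcons b5_44546_good <|
  gcons b5_44555_good <|
  gcons b5_44556_good <|
  gcons b5_44565_good <|
  gcons b5_44566_good <|
  gcons b5_44646_good <|
  gcons b5_44656_good <|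
  gcons b5_44666_good <|
  gcons b5_45455_good <|
  gcons b5_45456_good <|
  gcons b5_45466_good <|
  gcons b5_45546_good <|
  gcons b5_45555_good <|
  gcons b5_45556_good <|
  gcons b5_45565_good <|
  gcons b5_45566_good <|
  gcons b5_45646_good <|
  gcons b5_45656_good <|
  gcons b5_45665_good <|
  gcons b5_45666_good <|
  gcons b5_46466_good <|
  gcons b5_46556_good <|
  gcons b5_46566_good <|
  gcons b5_46666_good <|
  gcons b5_55555_good <|
  gcons b5_55556_good <|
  gcons b5_55566_good <|
  gcons b5_55656_good <|
  gcons b5_55666_good <|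
  gcons b5_56566_good <|
  gcons b5_56666_good <|
  gcons b5_66666_good <|
  gcons b6_444444_good <|
  gcons b6_444445_good <|
  gcons b6_444446_good <|
  gcons b6_444455_good <|
  gcons b6_444456_good <|
  gcons b6_444466_good <|
  gcons b6_444545_good <|
  gcons b6_444546_good <|
  gcons b6_444555_good <|
  gcons b6_444556_good <|
  gcons b6_444565_good <|
  gcons b6_444566_good <|
  gcons b6_444646_good <|
  gcons b6_444656_good <|
  gcons b6_444666_good <|
  gcons b6_445445_good <|
  gcons b6_445446_good <|
  gcons b6_445455_good <|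
  gcons b6_445456_good <|
  gcons b6_445465_good <|
  gcons b6_445466_good <|
  gcons b6_445546_good <|
  gcons b6_445555_good <|
  gcons b6_445556_good <|
  gcons b6_445565_good <|
  gcons b6_445566_good <|
  gcons b6_445646_good <|
  gcons b6_445656_good <|
  gcons b6_445665_good <|
  gcons b6_445666_good <|
  gcons b6_446446_good <|
  gcons b6_446456_good <|
  gcons b6_446466_good <|
  gcons b6_446556_good <|
  gcons b6_446566_good <|
  gcons b6_446666_good <|
  gcons b6_454545_good <|
  gcons b6_454546_good <|
  gcons b6_454555_good <|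
  gcons b6_454556_good <|
  gcons b6_454565_good <|
  gcons b6_454566_good <|
  gcons b6_454646_good <|
  gcons b6_454656_good <|
  gcons b6_454666_good <|
  gcons b6_455455_good <|
  gcons b6_455456_good <|
  gcons b6_455466_good <|
  gcons b6_455546_good <|
  gcons b6_455555_good <|
  gcons b6_455556_good <|
  gcons b6_455565_good <|
  gcons b6_455566_good <|
  gcons b6_455646_good <|
  gcons b6_455655_good <|
  gcons b6_455656_good <|
  gcons b6_455665_good <|
  gcons b6_455666_good <|
  gcons b6_456456_good <|
  gcons b6_456465_good <|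
  gcons b6_456466_good <|
  gcons b6_456546_good <|
  gcons b6_456556_good <|
  gcons b6_456565_good <|
  gcons b6_456566_good <|
  gcons b6_456646_good <|
  gcons b6_456656_good <|
  gcons b6_456665_good <|
  gcons b6_456666_good <|
  gcons b6_464646_good <|
  gcons b6_464656_good <|
  gcons b6_464666_good <|
  gcons b6_465556_good <|
  gcons b6_465566_good <|
  gcons b6_465656_good <|
  gcons b6_465666_good <|
  gcons b6_466466_good <|
  gcons b6_466566_good <|
  gcons b6_466666_good <|
  gcons b6_555555_good <|
  gcons b6_555556_good <|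
  gcons b6_555566_good <|
  gcons b6_555656_good <|
  gcons b6_555666_good <|
  gcons b6_556556_good <|
  gcons b6_556566_good <|
  gcons b6_556666_good <|
  gcons b6_565656_good <|
  gcons b6_565666_good <|
  gcons b6_566566_good <|
  fun _ h => absurd h (List.not_mem_nil)

end Pool.Agent.Helper17.CT
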