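import Pool.Agent.Helper17.CT.MapMain
import Pool.Agent.Helper88.DG.FarFalse
import Pool.Agent.Helper33.DG.ContrFace

set_option autoImplicit false

namespace Pool.Agent.Helper17.CT
open Function

section
variable {D : Type} (M : CMap D)

/-- two long faces at dual distance at most three are equal -/
def FarMap : Prop :=
  ∀ d d', 7 ≤ minimalPeriod M.f d → 7 ≤ minimalPeriod M.f d' →
    (∃ x y z, M.Face d x ∧ M.Face (M.a x) y ∧ M.Face (M.a y) z ∧ M.Face (M.a z) d') → M.Face d d'

lemma face_refl' (x : D) : M.Face x x := ⟨0, rfl⟩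

lemma face_iter (x : D) (n : ℕ) : M.Face x ((M.f)^[n] x) := ⟨n, rfl⟩

/-- the local theorem: a face of length at most five is adjacent to a long face, and there is
another long face within distance two. -/
theorem two_long (hG : ∀ p ∈ bra, Good p.1 p.2) (hA : NoA) [Finite D] (hp : M.Planar)
    (γ : D → Fin 3) (hT : M.Tri γ) (h4 : M.Cyc4) (hD : 12 < Nat.card D) (d : D)
    (hd : minimalPeriod M.f d ≤ 5) : ∃ i j k, 7 ≤ minimalPeriod M.f (M.a ((M.f)^[i] d)) ∧
      7 ≤ minimalPeriod M.f (M.a ((M.f)^[k] (M.a ((M.f)^[j] d)))) ∧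
      ¬ M.Face (M.a ((M.f)^[i] d)) (M.a ((M.f)^[k] (M.a ((M.f)^[j] d)))) := by
  obtain ⟨i, hi⟩ := local7_bra hG hp γ hT h4 hD d hd
  by_contra hcon
  push Not at hcon
  apply far_false hG hA hp γ hT h4 hD ((M.f)^[i] d) (by rw [period_shift]; exact hd)
  refine ⟨hi, ?_⟩
  intro j k h7
  rw [← iterate_add_apply] at h7 ⊢
  exact hcon i (j + i) k hi h7

lemma face_contr {X : D → Bool} {M' : CMap {d : D // X d = true ∨ X (M.a d) = true}}
    (h : M.IsContr X M') {x y : {d : D // X d = true ∨ X (M.a d) = true}} (hxy : M'.Face x y) :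
    M.Face x.1 y.1 := by
  obtain ⟨n, hn⟩ := hxy
  induction n generalizing x with
  | zero =>
    have h1 : x = y := hn
    rw [h1]
    exact face_refl' M _
  | succ n ih =>
    rw [iterate_succ_apply] at hn
    obtain ⟨m, _, hm⟩ := h.ret x
    have h2 := ih hn
    rw [hm] at h2
    exact face_trans M (face_iter M x.1 m) h2

lemma farMap_contr [Finite D] (hp : M.Planar) (γ : D → Fin 3) (hT : M.Tri γ) (X : D → Bool)
    (hX : M.VSet X) (h3 : M.bd X = 3)
    (M' : CMap {d : D // X d = true ∨ X (M.a d) = true}) (h : M.IsContr X M')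
    (hF : FarMap M) : FarMap M' := by
  intro d d' hd hd' ⟨x, y, z, h1, h2, h3', h4⟩
  apply contr_face hp γ hT X hX h3 M' h
  apply hF d.1 d'.1 (le_trans hd (contr_period M X M' h d)) (le_trans hd' (contr_period M X M' h d'))
  refine ⟨x.1, y.1, z.1, face_contr M h h1, ?_, ?_, ?_⟩
  · have := face_contr M h h2
    rwa [h.ha] at this
  · have := face_contr M h h3'
    rwa [h.ha] at this
  · have := face_contr M h h4
    rwa [h.ha] at this

/-- the class theorem for maps: long faces pairwise at distance at least four -/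
theorem stk_far (hG : ∀ p ∈ bra, Good p.1 p.2) (hA : NoA) : ∀ (n : ℕ) (D : Type) [Finite D]
    (M : CMap D) (γ : D → Fin 3), Nat.card D ≤ n → M.Planar → M.Tri γ → FarMap M →
    12 ≤ Nat.card D → M.Stk := by
  intro n
  induction n with
  | zero =>
    intro D _ M γ h _ _ _ h12
    omega
  | succ n ih =>
    intro D _ M γ hn hp hT h6 h12
    have hne : Nonempty D := by
      by_contra hne
      rw [not_nonempty_iff] at hne
      rw [Nat.card_of_isEmpty] at h12
      omega
    have hc3 : M.Con3 := con3_of_tri M γ hT
    have hs : M.Simple := simple_of_con3 M hc3 (by omega)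
    -- cyclically 4-edge-connected maps of the class have 12 darts
    have h12' : ∀ (D' : Type) [Finite D'] (M' : CMap D') (γ' : D' → Fin 3), M'.Planar →
        M'.Tri γ' → M'.Cyc4 → FarMap M' → Nonempty D' → Nat.card D' ≤ 12 := by
      intro D' _ M' γ' hp' hT' h4' h6' hne'
      by_contra hlt
      push Not at hlt
      obtain ⟨d, hd⟩ := small_face M' hp'
      obtain ⟨i, j, k, h1, h2, h3⟩ := two_long M' hG hA hp' γ' hT' h4' hlt d hd
      apply h3
      apply h6' _ _ h1 h2
      refine ⟨M'.a ((M'.f)^[i] d), (M'.f)^[j] d, (M'.f)^[k] (M'.a ((M'.f)^[j] d)),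
        face_refl' M' _, ?_, face_iter M' _ k, face_refl' M' _⟩
      rw [M'.a2]
      exact face_trans M' (face_symm M' (face_iter M' d i)) (face_iter M' d j)
    by_cases h4 : M.Cyc4
    · have := h12' D M γ hp hT h4 h6 hne
      exact stk_base M (by omega) hs
    · obtain ⟨X, hX, h3, ⟨y, hy⟩, hX6, hY6, hcyc⟩ := exists_cyc4 M hc3 h4
      obtain ⟨M1, hM1⟩ := exists_contr M hp γ hT X hX h3 ⟨y, hy⟩
      have hp1 := contr_planar M hp γ hT X hX h3 M1 hM1
      have hT1 := contr_tri M γ hT X hX h3 M1 hM1
      have h61 : FarMap M1 := farMap_contr M hp γ hT X hX h3 M1 hM1 h6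
      have hcard1 := contr_card_add M X
      rw [h3] at hcard1
      have hne1 : Nonempty {d : D // X d = true ∨ X (M.a d) = true} := by
        by_contra hne1
        rw [not_nonempty_iff] at hne1
        rw [Nat.card_of_isEmpty] at hcard1
        omega
      have hle1 := h12' _ M1 _ hp1 hT1 (hcyc M1 hM1) h61 hne1
      have hdvd1 := six_dvd M1 _ hT1
      have hX9 : Nat.card {d : D // X d = true} = 9 := by omega
      -- contract the triangle
      set X' : D → Bool := fun d => !X d with hX'
      have hXv : M.VSet X' := fun d => by simp only [hX']; rw [hX d]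
      have h3' : M.bd X' = 3 := by rw [hX', bd_compl M X, h3]
      have hXt : ∃ d, X' d = false := by
        by_contra hcon
        push Not at hcon
        have : IsEmpty {d : D // X d = true} := ⟨fun d => hcon d.1 (by simp [hX', d.2])⟩
        rw [Nat.card_of_isEmpty] at hX9
        omega
      obtain ⟨M2, hM2⟩ := exists_contr M hp γ hT X' hXv h3' hXt
      have hp2 := contr_planar M hp γ hT X' hXv h3' M2 hM2
      have hT2 := contr_tri M γ hT X' hXv h3' M2 hM2
      have h62 : FarMap M2 := farMap_contr M hp γ hT X' hXv h3' M2 hM2 h6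
      have hcard2 := contr_card_add M X'
      rw [h3'] at hcard2
      have e1 : Nat.card {d : D // X' d = true} = Nat.card {d : D // X d = false} :=
        Nat.card_congr (Equiv.subtypeEquivRight (fun d => by simp [hX']))
      have e2 : Nat.card {d : D // X' d = false} = Nat.card {d : D // X d = true} :=
        Nat.card_congr (Equiv.subtypeEquivRight (fun d => by simp [hX']))
      have hsum : Nat.card D = Nat.card {d : D // X d = true} +
          Nat.card {d : D // X d = false} := by
        classical
        have : Fintype D := Fintype.ofFinite D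
        rw [Nat.card_eq_fintype_card, Nat.card_eq_fintype_card, Nat.card_eq_fintype_card,
          Fintype.card_subtype, Fintype.card_subtype, ← Finset.card_univ]
        rw [← Finset.card_filter_add_card_filter_not (s := (Finset.univ : Finset D))
          (p := fun d => X d = true)]
        congr 2
        ext d
        simp
      have hdvd2 := six_dvd M2 _ hT2
      have hS2 : M2.Stk := ih _ M2 _ (by omega) hp2 hT2 h62 (by omega)
      have hs2 : M2.Simple := simple_of_con3 M2 (con3_of_tri M2 _ hT2) (by omega)
      exact stk_step M hs X' hXv h3' (by rw [e2, hX9]) M2 hM2 hs2 hS2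

end

end Pool.Agent.Helper17.CT
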