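import Pool.Agent.Helper17.CT.GraphMain
import Pool.Agent.Helper17.DF.MapD

set_option autoImplicit false

namespace Pool.Agent.Helper17.CT
open Function

section
variable {V : Type} [Fintype V] [DecidableEq V] (G : SimpleGraph V)
variable (ρ : Equiv.Perm G.Dart) (h1 : ∀ d, (ρ d).fst = d.fst) (h2 : ∀ d, ρ d ≠ d)
    (h3 : ∀ v : V, (G.neighborSet v).ncard = 3)

include h1 h2 h3 in
/-- the class theorem: long faces pairwise at distance at least four -/
theorem class_far (hG : ∀ p ∈ bra, Good p.1 p.2) (hA : NoA)
    (hE : (Fintype.card V : ℤ) - (G.edgeSet.ncard : ℤ) +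
      (Nat.card (Quot fun x y : G.Dart => ρ x.symm = y) : ℤ) = 2)
    (hF : ∀ d d' : G.Dart, 7 ≤ minimalPeriod (fun x : G.Dart => ρ x.symm) d →
      7 ≤ minimalPeriod (fun x : G.Dart => ρ x.symm) d' →
      (∃ i j k l : ℕ, (fun x : G.Dart => ρ x.symm)^[l] ((fun x : G.Dart => ρ x.symm)^[k]
        ((fun x : G.Dart => ρ x.symm)^[j] ((fun x : G.Dart => ρ x.symm)^[i] d).symm).symm).symm
          = d') → ∃ n : ℕ, (fun x : G.Dart => ρ x.symm)^[n] d = d')
    (hH : {s : Set (Sym2 V) | ∃ (u : V) (p : G.Walk u u),
      p.IsHamiltonianCycle ∧ s = {e : Sym2 V | e ∈ p.edges}}.ncard = 3) :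
    ∃ (n : ℕ) (Γ : ∀ k : ℕ, SimpleGraph (Fin (4 + 2 * k))),
          Γ 0 = (⊤ : SimpleGraph (Fin (4 + 2 * 0))) ∧
          (∀ (k : ℕ) (x : Fin (4 + 2 * k)), ((Γ k).neighborSet x).ncard = 3) ∧
          (∀ k : ℕ, k < n →
            ∃ (f : Fin (4 + 2 * (k + 1)) → Fin (4 + 2 * k)) (v : Fin (4 + 2 * k)),
              (f ⁻¹' ({v} : Set (Fin (4 + 2 * k)))).ncard = 3 ∧
              (∀ w : Fin (4 + 2 * k), w ≠ v →
                (f ⁻¹' ({w} : Set (Fin (4 + 2 * k)))).ncard = 1) ∧
              (∀ x y : Fin (4 + 2 * (k + 1)),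
                (Γ (k + 1)).Adj x y → f x = f y ∨ (Γ k).Adj (f x) (f y)) ∧
              (∀ x y : Fin (4 + 2 * (k + 1)),
                x ≠ y → f x = v → f y = v → (Γ (k + 1)).Adj x y) ∧
              (∀ a b : Fin (4 + 2 * k), (Γ k).Adj a b →
                ∃! e : Sym2 (Fin (4 + 2 * (k + 1))),
                  e ∈ (Γ (k + 1)).edgeSet ∧ Sym2.map f e = s(a, b))) ∧
          Nonempty (G ≃g Γ n) := by
  have hfin : Finite G.Dart := by
    classical
    exact Finite.of_fintype _
  obtain ⟨hp, ⟨γ, hγ⟩, h12, -⟩ := setup G ρ h1 h2 h3 hE hH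
  apply iso_of_stk G ρ h1 h2 h3
  apply stk_far hG hA _ G.Dart (mapOf G ρ h1 h2 h3) γ le_rfl hp hγ _ h12
  rintro d d' hd hd' ⟨x, y, z, ⟨i, hi⟩, ⟨j, hj⟩, ⟨k, hk⟩, ⟨l, hl⟩⟩
  apply hF d d' hd hd'
  refine ⟨i, j, k, l, ?_⟩
  have e1 : (fun x : G.Dart => ρ x.symm)^[i] d = x := hi
  have e2 : (fun x : G.Dart => ρ x.symm)^[j] x.symm = y := hj
  have e3 : (fun x : G.Dart => ρ x.symm)^[k] y.symm = z := hk
  have e4 : (fun x : G.Dart => ρ x.symm)^[l] z.symm = d' := hl
  rw [e1, e2, e3, e4]

include h1 h2 h3 in
/-- the local theorem -/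
theorem local_far (hG : ∀ p ∈ bra, Good p.1 p.2) (hA : NoA)
    (hE : (Fintype.card V : ℤ) - (G.edgeSet.ncard : ℤ) +
      (Nat.card (Quot fun x y : G.Dart => ρ x.symm = y) : ℤ) = 2)
    (hC : ∀ X : Set V, {e : Sym2 V | e ∈ G.edgeSet ∧ (∃ x ∈ e, x ∈ X) ∧ ∃ y ∈ e, y ∉ X}.ncard ≤ 3 →
      X.Subsingleton ∨ Xᶜ.Subsingleton)
    (hV : 4 < Fintype.card V)
    (hH : {s : Set (Sym2 V) | ∃ (u : V) (p : G.Walk u u),
      p.IsHamiltonianCycle ∧ s = {e : Sym2 V | e ∈ p.edges}}.ncard = 3)
    (d : G.Dart) (hd : minimalPeriod (fun x : G.Dart => ρ x.symm) d ≤ 5) :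
    ∃ i j k : ℕ, 7 ≤ minimalPeriod (fun x : G.Dart => ρ x.symm)
        ((fun x : G.Dart => ρ x.symm)^[i] d).symm ∧
      7 ≤ minimalPeriod (fun x : G.Dart => ρ x.symm)
        ((fun x : G.Dart => ρ x.symm)^[k] ((fun x : G.Dart => ρ x.symm)^[j] d).symm).symm ∧
      ∀ n : ℕ, (fun x : G.Dart => ρ x.symm)^[n] ((fun x : G.Dart => ρ x.symm)^[i] d).symm ≠
        ((fun x : G.Dart => ρ x.symm)^[k] ((fun x : G.Dart => ρ x.symm)^[j] d).symm).symm := by
  classical
  have hfin : Finite G.Dart := Finite.of_fintype _
  obtain ⟨hp, ⟨γ, hγ⟩, h12, hcard⟩ := setup G ρ h1 h2 h3 hE hH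
  set M := mapOf G ρ h1 h2 h3 with hM
  have hne : Nonempty V := by
    have : 0 < Fintype.card V := by omega
    exact Fintype.card_pos_iff.mp this
  have hdart : ∀ w : V, ∃ d : G.Dart, d.fst = w := by
    intro w
    have : (G.neighborSet w).Nonempty := by
      apply Set.nonempty_of_ncard_ne_zero
      rw [h3]; norm_num
    obtain ⟨z, hz⟩ := this
    exact ⟨⟨(w, z), hz⟩, rfl⟩
  -- darts at the same vertex
  have hsame : ∀ (X : G.Dart → Bool), M.VSet X → ∀ d d' : G.Dart, d'.fst = d.fst → X d' = X d := by
    intro X hX d d' hdd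
    have hc : d' = d ∨ d' = ρ d ∨ d' = ρ (ρ d) := by
      by_contra hcon
      push Not at hcon
      obtain ⟨c1, c2, c3⟩ := hcon
      have f1 : (ρ d).fst = d.fst := h1 d
      have f2 : (ρ (ρ d)).fst = d.fst := (h1 _).trans f1
      have n1 : ρ d ≠ d := h2 d
      have n2 : ρ (ρ d) ≠ ρ d := h2 (ρ d)
      have n4 : ρ (ρ d) ≠ d := by
        intro h
        have h5 : ρ (ρ (ρ d)) = d := M.s3 d
        rw [h] at h5
        exact h2 d h5
      have hS : ({d, ρ d, ρ (ρ d), d'} : Finset G.Dart).card = 4 := by
        rw [Finset.card_insert_of_notMem, Finset.card_insert_of_notMem,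
          Finset.card_insert_of_notMem, Finset.card_singleton]
        · simp only [Finset.mem_singleton]; exact fun h => c3 h.symm
        · simp only [Finset.mem_insert, Finset.mem_singleton]
          rintro (h | h)
          · exact n2 h.symm
          · exact c2 h.symm
        · simp only [Finset.mem_insert, Finset.mem_singleton]
          rintro (h | h | h)
          · exact n1 h.symm
          · exact n4 h.symm
          · exact c1 h.symm
      have hle : ({d, ρ d, ρ (ρ d), d'} : Finset G.Dart).card ≤
          (G.neighborFinset d.fst).card := by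
        apply Finset.card_le_card_of_injOn (fun x => x.snd)
        · intro x hx
          simp only [Finset.coe_insert, Finset.coe_singleton, Set.mem_insert_iff,
            Set.mem_singleton_iff] at hx
          have hxf : x.fst = d.fst := by
            rcases hx with h | h | h | h <;> rw [h] <;> assumption
          simp only [Finset.mem_coe, SimpleGraph.mem_neighborFinset]
          rw [← hxf]
          exact x.adj
        · intro x hx y hy hxy
          simp only [Finset.coe_insert, Finset.coe_singleton, Set.mem_insert_iff,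
            Set.mem_singleton_iff] at hx hy
          have hxf : x.fst = d.fst := by
            rcases hx with h | h | h | h <;> rw [h] <;> assumption
          have hyf : y.fst = d.fst := by
            rcases hy with h | h | h | h <;> rw [h] <;> assumption
          apply SimpleGraph.Dart.ext
          exact Prod.ext (hxf.trans hyf.symm) hxy
      rw [hS] at hle
      have := deg3 G h3 d.fst
      rw [← SimpleGraph.card_neighborFinset_eq_degree] at this
      omega
    rcases hc with h | h | h
    · rw [h]
    · rw [h]; exact hX d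
    · rw [h]; exact (hX (ρ d)).trans (hX d)
  have h4 : M.Cyc4 := by
    intro X hX hb
    let Y : Set V := {v | ∃ d : G.Dart, d.fst = v ∧ X d = true}
    have hYmem : ∀ d : G.Dart, d.fst ∈ Y ↔ X d = true := by
      intro d
      constructor
      · rintro ⟨d', hd', hX'⟩
        rw [← hsame X hX d d' hd']
        exact hX'
      · intro h
        exact ⟨d, rfl, h⟩
    have hcut : {e : Sym2 V | e ∈ G.edgeSet ∧ (∃ x ∈ e, x ∈ Y) ∧ ∃ y ∈ e, y ∉ Y}.ncard ≤ 3 := by
      refine le_trans ?_ hb
      have himg : {e : Sym2 V | e ∈ G.edgeSet ∧ (∃ x ∈ e, x ∈ Y) ∧ ∃ y ∈ e, y ∉ Y} ⊆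
          (fun d : G.Dart => d.edge) '' {d : G.Dart | X d = true ∧ X (M.a d) = false} := by
        rintro e ⟨he, ⟨x, hx, hxY⟩, ⟨y, hy, hyY⟩⟩
        have hxy : x ≠ y := fun h => hyY (h ▸ hxY)
        have hexy : e = s(x, y) := by
          exact ((Sym2.mem_and_mem_iff hxy).1 ⟨hx, hy⟩)
        rw [hexy] at he
        refine ⟨⟨(x, y), he⟩, ⟨?_, ?_⟩, ?_⟩
        · exact (hYmem ⟨(x, y), he⟩).1 hxY
        · have h6 := (hYmem (M.a ⟨(x, y), he⟩)).not.1 hyY
          simpa using h6
        · rw [hexy]; rfl
      refine le_trans (Set.ncard_le_ncard himg (Set.toFinite _)) ?_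
      refine le_trans (Set.ncard_image_le (Set.toFinite _)) ?_
      rw [CMap.bd, ← Nat.card_coe_set_eq]
      exact le_rfl
    rcases hC Y hcut with h | h
    · left
      by_cases hex : ∃ v, X v = true
      · obtain ⟨v, hv⟩ := hex
        refine ⟨v, fun d hd => ?_⟩
        have h7 : d.fst = v.fst := h ((hYmem d).2 hd) ((hYmem v).2 hv)
        by_contra hcon
        push Not at hcon
        obtain ⟨c1, c2, c3⟩ := hcon
        have h8 := hsame (fun x => decide (x = v ∨ x = M.s v ∨ x = M.s (M.s v))) (by
          intro x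
          rw [Bool.eq_iff_iff, decide_eq_true_iff, decide_eq_true_iff]
          constructor
          · rintro (h | h | h)
            · right; right
              have := congrArg (fun z => M.s (M.s z)) h
              simpa only [M.s3] using this
            · left
              have := congrArg (fun z => M.s (M.s z)) h
              simpa only [M.s3] using this
            · right; left
              have := congrArg (fun z => M.s (M.s z)) h
              simpa only [M.s3] using this
          · rintro (h | h | h)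
            · right; left; rw [h]
            · right; right; rw [h]
            · left; rw [h, M.s3]) v d h7
        simp only [true_or, decide_true, decide_eq_true_eq] at h8
        rcases h8 with h9 | h9 | h9
        · exact c1 h9
        · exact c2 h9
        · exact c3 h9
      · push Not at hex
        refine ⟨d, fun x hx => ?_⟩
        exact absurd hx (hex x)
    · right
      by_cases hex : ∃ v, X v = false
      · obtain ⟨v, hv⟩ := hex
        refine ⟨v, fun d hd => ?_⟩
        have hYf : ∀ d : G.Dart, X d = false → d.fst ∈ Yᶜ := by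
          intro d hd hmem
          rw [(hYmem d).1 hmem] at hd
          exact Bool.noConfusion hd
        have h7 : d.fst = v.fst := h (hYf d hd) (hYf v hv)
        have h8 := hsame (fun x => decide (x = v ∨ x = M.s v ∨ x = M.s (M.s v))) (by
          intro x
          rw [Bool.eq_iff_iff, decide_eq_true_iff, decide_eq_true_iff]
          constructor
          · rintro (h | h | h)
            · right; right
              have := congrArg (fun z => M.s (M.s z)) h
              simpa only [M.s3] using this
            · left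
              have := congrArg (fun z => M.s (M.s z)) h
              simpa only [M.s3] using this
            · right; left
              have := congrArg (fun z => M.s (M.s z)) h
              simpa only [M.s3] using this
          · rintro (h | h | h)
            · right; left; rw [h]
            · right; right; rw [h]
            · left; rw [h, M.s3]) v d h7
        simp only [true_or, decide_true, decide_eq_true_eq] at h8
        exact h8
      · push Not at hex
        refine ⟨d, fun x hx => ?_⟩
        exact absurd hx (hex x)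
  obtain ⟨i, j, k, f1, f2, f3⟩ := two_long M hG hA hp γ hγ h4 (by omega) d hd
  exact ⟨i, j, k, f1, f2, fun n hn => f3 ⟨n, hn⟩⟩

end

end Pool.Agent.Helper17.CT
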