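import Pool.Agent.Helper17.DF.Good4
import Pool.Agent.Helper17.DF.Dec

set_option autoImplicit false

/-!
The two long checks can be split: the recursion over the ports along paths of the state tree, the
enumeration of the colourings along a frontier.
-/

namespace Pool.Agent.Helper17.CT

/-- `foldR` with truncated blocks -/
noncomputable def foldQ (wd t : ℕ) : ℕ → ℕ :=
  Nat.rec (fun x => Nat.mod x (Nat.shiftLeft 1 wd))
    (fun t ih x => (fun s => ih (Nat.xor (Nat.land x (Nat.pred (Nat.shiftLeft 1 s)))
        (Nat.shiftRight x s)))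
      (Nat.mul wd (Nat.shiftLeft 1 t))) t

/-- `GG4` with the truncated folding, and the blocking systems looked up first -/
noncomputable def GGQ (k : ℕ) (S : Tri') (wd t : ℕ) (ux : UX) :
    ℕ → St → ℕ → ℕ → ℕ → TT → Bool :=
  UX.rec (fun _ st U B L T => Bool.rec
      (St.rec ((fun w => andR (TT.rec true (fun w' => Nat.beq w' w)
          (fun _ _ _ _ _ _ _ _ => true) T)
        (orR (blkR k U B (S.get U 0)) (Nat.beq w 0))) (foldQ wd t L)) (fun _ _ _ _ => true) st)
      (zeroR T) (Nat.beq L 0))
    (fun u x p sp r _ ih h st U B L T =>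
      Bool.rec (Bool.rec (zeroR T)
      ((fun L1 => (fun Tu To Ts Td =>
            andR (ih h st U (Nat.lor B sp) (Nat.xor L L1) Tu)
             (andR (ih (Nat.succ h) (.cons p x st) (Nat.lor U (Nat.shiftLeft 1 p)) B L1 To)
              (St.rec true (fun q y st' _ => (fun Ld =>
                    (fun U' B' => andR (ih (Nat.pred h) st' U' B' (Nat.xor L1 Ld) Ts)
                        (ih (Nat.pred h) st' U' B' Ld Td))
                      (Nat.lor U (Nat.shiftLeft 1 p))
                      (Nat.lor B (Nat.lor (Nat.shiftLeft p (Nat.mul 4 q))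
                      (Nat.shiftLeft q (Nat.mul 4 p))))) (Nat.land L1 (Nat.xor x y))) st)))
              T.u T.o T.s T.d) (Nat.land L u)) (Nat.ble h r))
      (zeroR T) (Nat.beq L 0)) ux

/-- `GGQ`, following only the given path (0: port not used, 1: open, 2, 3: close) in the first
steps. -/
noncomputable def GG5 (k : ℕ) (S : Tri') (wd t : ℕ) (path : List ℕ) :
    UX → ℕ → St → ℕ → ℕ → ℕ → TT → Bool :=
  List.rec (fun ux => GGQ k S wd t ux)
    (fun c _ ih ux =>
      UX.rec (GGQ k S wd t .nil) (fun u x p sp r s _ h st U B L T =>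
      Bool.rec (Bool.rec (zeroR T)
      ((fun L1 => (fun Tu To Ts Td =>
            Bool.rec
             (Bool.rec
              (St.rec true (fun q y st' _ => (fun Ld =>
                    (fun U' B' => Bool.rec (ih s (Nat.pred h) st' U' B' Ld Td)
                      (ih s (Nat.pred h) st' U' B' (Nat.xor L1 Ld) Ts)
                         (Nat.beq c 2))
                      (Nat.lor U (Nat.shiftLeft 1 p))
                      (Nat.lor B (Nat.lor (Nat.shiftLeft p (Nat.mul 4 q))
                      (Nat.shiftLeft q (Nat.mul 4 p))))) (Nat.land L1 (Nat.xor x y))) st)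
              (ih s (Nat.succ h) (.cons p x st) (Nat.lor U (Nat.shiftLeft 1 p)) B L1 To)
              (Nat.beq c 1))
             (ih s h st U (Nat.lor B sp) (Nat.xor L L1) Tu)
             (Nat.beq c 0))
              T.u T.o T.s T.d) (Nat.land L u)) (Nat.ble h r))
      (zeroR T) (Nat.beq L 0)) ux) path

/-- all paths of length `d` -/
def paths : ℕ → List (List ℕ)
  | 0 => [[]]
  | d + 1 => (paths d).map (0 :: ·) ++ ((paths d).map (1 :: ·) ++ ((paths d).map (2 :: ·) ++
      (paths d).map (3 :: ·)))

noncomputable def runG5 (F : Code) (S : Tri') (Ct : Cert) (T : TT) (ps : List (List ℕ)) : Bool :=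
  allLR (fun path => GG5 F.k S Ct.wd Ct.t path (mkUX Ct.W Ct.B Ct.K1 Ct.K2 0 F.k) 0 .nil 0 0
    (Nat.land (Nat.pred (Nat.shiftLeft 1 (Nat.mul 3 Ct.B))) Ct.W) T) ps

lemma mem_paths_succ {d : ℕ} {l : List ℕ} (h : l ∈ paths d) {c : ℕ} (hc : c < 4) :
    c :: l ∈ paths (d + 1) := by
  simp only [paths, List.mem_append, List.mem_map]
  interval_cases c
  · exact Or.inl ⟨l, h, rfl⟩
  · exact Or.inr (Or.inl ⟨l, h, rfl⟩)
  · exact Or.inr (Or.inr (Or.inl ⟨l, h, rfl⟩))
  · exact Or.inr (Or.inr (Or.inr ⟨l, h, rfl⟩))

lemma paths_ne (d : ℕ) : ∃ l, l ∈ paths d := by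
  induction d with
  | zero => exact ⟨[], by simp [paths]⟩
  | succ d ih =>
    obtain ⟨l, hl⟩ := ih
    exact ⟨_, mem_paths_succ hl (c := 0) (by norm_num)⟩

lemma fold_zero' (wd x : ℕ) : fold wd 0 x = x % 2 ^ wd := by
  have e : fold wd 0 x = x % (1 <<< wd) := rfl
  rw [e, Nat.one_shiftLeft]

lemma fold_succ' (wd t x : ℕ) : fold wd (t + 1) x = fold wd t (x ^^^ (x >>> (wd * 2 ^ t))) := by
  have e : fold wd (t + 1) x = fold wd t (x ^^^ (x >>> (wd * (1 <<< t)))) := rfl
  rw [e, Nat.one_shiftLeft]

lemma fold_congr (wd t : ℕ) : ∀ x y : ℕ, (∀ i < wd * 2 ^ t, x.testBit i = y.testBit i) →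
    fold wd t x = fold wd t y := by
  induction t with
  | zero =>
    intro x y h
    rw [fold_zero', fold_zero']
    apply Nat.eq_of_testBit_eq
    intro i
    rw [Nat.testBit_mod_two_pow, Nat.testBit_mod_two_pow]
    by_cases hi : i < wd
    · rw [h i (by simpa using hi)]
    · simp [hi]
  | succ t ih =>
    intro x y h
    rw [fold_succ', fold_succ']
    apply ih
    intro i hi
    rw [Nat.testBit_xor, Nat.testBit_xor, Nat.testBit_shiftRight, Nat.testBit_shiftRight,
      h i (by rw [pow_succ]; nlinarith [Nat.zero_le (wd * 2 ^ t)]),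
      h (wd * 2 ^ t + i) (by rw [pow_succ]; nlinarith)]

lemma foldQ_eq (wd t : ℕ) : ∀ x, foldQ wd t x = foldR wd t x := by
  induction t with
  | zero => intro x; rfl
  | succ t ih =>
    intro x
    have e : foldQ wd (t + 1) x = foldQ wd t ((x &&& ((1 <<< (wd * (1 <<< t))) - 1)) ^^^
      (x >>> (wd * (1 <<< t)))) := rfl
    rw [e, ih, foldR_eq, foldR_eq, fold_succ', Nat.one_shiftLeft, Nat.one_shiftLeft,
      Nat.and_two_pow_sub_one_eq_mod]
    apply fold_congr
    intro i hi
    rw [Nat.testBit_xor, Nat.testBit_xor, Nat.testBit_mod_two_pow]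
    simp [hi]

lemma GGQ_eq (k : ℕ) (S : Tri') (wd t : ℕ) (ux : UX) :
    GGQ k S wd t ux = GG4 k S wd t ux := by
  induction ux with
  | nil =>
    funext h st U B L T
    have e1 : GGQ k S wd t .nil h st U B L T =
      Bool.rec
      (St.rec ((fun w => andR (TT.rec true (fun w' => Nat.beq w' w)
          (fun _ _ _ _ _ _ _ _ => true) T)
        (orR (blkR k U B (S.get U 0)) (Nat.beq w 0))) (foldQ wd t L)) (fun _ _ _ _ => true) st)
      (zeroR T) (Nat.beq L 0) := rfl
    rw [e1, foldQ_eq]
    have e2 : ∀ x y : Bool, orR x y = orR y x := by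
      intro x y; rw [orR_eq, orR_eq, Bool.or_comm]
    simp only [e2 (blkR k U B (S.get U 0))]
    rfl
  | cons u x p sp r s ih =>
    funext h st U B L T
    have e1 : GGQ k S wd t (.cons u x p sp r s) h st U B L T =
      Bool.rec (Bool.rec (zeroR T)
      ((fun L1 => (fun Tu To Ts Td =>
          (andR (GGQ k S wd t s h st U (Nat.lor B sp) (Nat.xor L L1) Tu)
             (andR (GGQ k S wd t s (Nat.succ h) (.cons p x st)
                (Nat.lor U (Nat.shiftLeft 1 p)) B L1 To)
              (St.rec true (fun q y st' _ => (fun Ld =>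
                    (fun U' B' => andR (GGQ k S wd t s (Nat.pred h) st' U' B' (Nat.xor L1 Ld) Ts)
                        (GGQ k S wd t s (Nat.pred h) st' U' B' Ld Td))
                      (Nat.lor U (Nat.shiftLeft 1 p))
                      (Nat.lor B (Nat.lor (Nat.shiftLeft p (Nat.mul 4 q))
                      (Nat.shiftLeft q (Nat.mul 4 p))))) (Nat.land L1 (Nat.xor x y))) st))))
              T.u T.o T.s T.d) (Nat.land L u)) (Nat.ble h r))
      (zeroR T) (Nat.beq L 0) := rfl
    rw [e1, ih]
    rfl

/-- the branches of one step -/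
lemma GG5_split (k : ℕ) (S : Tri') (wd t : ℕ) (ux : UX) :
    ∀ (d h : ℕ) (st : St) (U B L : ℕ) (T : TT),
      (∀ path ∈ paths d, GG5 k S wd t path ux h st U B L T = true) →
      GG5 k S wd t [] ux h st U B L T = true := by
  induction ux with
  | nil =>
    intro d h st U B L T hp
    obtain ⟨l, hl⟩ := paths_ne d
    cases l with
    | nil => exact hp [] hl
    | cons c l => exact (hp (c :: l) hl)
  | cons u x p sp r s ih =>
    intro d h st U B L T hp
    cases d with
    | zero => exact hp [] (by simp [paths])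
    | succ d =>
      have e1 : GG5 k S wd t [] (.cons u x p sp r s) h st U B L T =
        Bool.rec (Bool.rec (zeroR T)
        ((fun L1 => (fun Tu To Ts Td =>
            (andR (GG5 k S wd t [] s h st U (Nat.lor B sp) (Nat.xor L L1) Tu)
               (andR (GG5 k S wd t [] s (Nat.succ h) (.cons p x st)
                  (Nat.lor U (Nat.shiftLeft 1 p)) B L1 To)
                (St.rec true (fun q y st' _ => (fun Ld =>
                      (fun U' B' => andR
                          (GG5 k S wd t [] s (Nat.pred h) st' U' B' (Nat.xor L1 Ld) Ts)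
                          (GG5 k S wd t [] s (Nat.pred h) st' U' B' Ld Td))
                        (Nat.lor U (Nat.shiftLeft 1 p))
                        (Nat.lor B (Nat.lor (Nat.shiftLeft p (Nat.mul 4 q))
                        (Nat.shiftLeft q (Nat.mul 4 p))))) (Nat.land L1 (Nat.xor x y))) st))))
                T.u T.o T.s T.d) (Nat.land L u)) (Nat.ble h r))
        (zeroR T) (Nat.beq L 0) := rfl
      have e2 : ∀ c l, GG5 k S wd t (c :: l) (.cons u x p sp r s) h st U B L T =
        Bool.rec (Bool.rec (zeroR T)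
        ((fun L1 => (fun Tu To Ts Td =>
            Bool.rec
             (Bool.rec
              (St.rec true (fun q y st' _ => (fun Ld =>
                    (fun U' B' => Bool.rec (GG5 k S wd t l s (Nat.pred h) st' U' B' Ld Td)
                      (GG5 k S wd t l s (Nat.pred h) st' U' B' (Nat.xor L1 Ld) Ts)
                         (Nat.beq c 2))
                      (Nat.lor U (Nat.shiftLeft 1 p))
                      (Nat.lor B (Nat.lor (Nat.shiftLeft p (Nat.mul 4 q))
                      (Nat.shiftLeft q (Nat.mul 4 p))))) (Nat.land L1 (Nat.xor x y))) st)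
              (GG5 k S wd t l s (Nat.succ h) (.cons p x st)
                (Nat.lor U (Nat.shiftLeft 1 p)) B L1 To)
              (Nat.beq c 1))
             (GG5 k S wd t l s h st U (Nat.lor B sp) (Nat.xor L L1) Tu)
             (Nat.beq c 0))
                T.u T.o T.s T.d) (Nat.land L u)) (Nat.ble h r))
        (zeroR T) (Nat.beq L 0) := fun _ _ => rfl
      obtain ⟨l0, hl0⟩ := paths_ne d
      have hp' : ∀ c < 4, ∀ l ∈ paths d,
          GG5 k S wd t (c :: l) (.cons u x p sp r s) h st U B L T = true :=
        fun c hc l hl => hp _ (mem_paths_succ hl hc)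
      simp only [e2] at hp'
      rw [e1]
      cases hL : Nat.beq L 0 with
      | true =>
        rw [hL] at hp'
        exact hp' 0 (by norm_num) l0 hl0
      | false =>
        rw [hL] at hp'
        cases hr : Nat.ble h r with
        | false =>
          rw [hr] at hp'
          exact hp' 0 (by norm_num) l0 hl0
        | true =>
          rw [hr] at hp'
          have a0 := ih d _ _ _ _ _ _ (hp' 0 (by norm_num))
          have a1 := ih d _ _ _ _ _ _ (hp' 1 (by norm_num))
          have a2 := hp' 2 (by norm_num)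
          have a3 := hp' 3 (by norm_num)
          change andR _ _ = true
          rw [andR_eq, Bool.and_eq_true]
          refine ⟨a0, ?_⟩
          rw [andR_eq, Bool.and_eq_true]
          refine ⟨a1, ?_⟩
          cases st with
          | nil => rfl
          | cons q y st' =>
            change andR _ _ = true
            rw [andR_eq, Bool.and_eq_true]
            exact ⟨ih d _ _ _ _ _ _ a2, ih d _ _ _ _ _ _ a3⟩

lemma runG5_append (F : Code) (S : Tri') (Ct : Cert) (T : TT) (p q : List (List ℕ))
    (hp : runG5 F S Ct T p = true) (hq : runG5 F S Ct T q = true) :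
    runG5 F S Ct T (p ++ q) = true := by
  unfold runG5 at *
  rw [allLR_eq] at *
  induction p with
  | nil => exact hq
  | cons a p ih =>
    have e : ∀ l, allL (fun path => GG5 F.k S Ct.wd Ct.t path (mkUX Ct.W Ct.B Ct.K1 Ct.K2 0 F.k) 0
      .nil 0 0 (Nat.land (Nat.pred (Nat.shiftLeft 1 (Nat.mul 3 Ct.B))) Ct.W) T) (a :: l) =
      (GG5 F.k S Ct.wd Ct.t a (mkUX Ct.W Ct.B Ct.K1 Ct.K2 0 F.k) 0
      .nil 0 0 (Nat.land (Nat.pred (Nat.shiftLeft 1 (Nat.mul 3 Ct.B))) Ct.W) T &&
      allL (fun path => GG5 F.k S Ct.wd Ct.t path (mkUX Ct.W Ct.B Ct.K1 Ct.K2 0 F.k) 0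
      .nil 0 0 (Nat.land (Nat.pred (Nat.shiftLeft 1 (Nat.mul 3 Ct.B))) Ct.W) T) l) := fun _ => rfl
    rw [e, Bool.and_eq_true] at hp
    rw [List.cons_append, e, Bool.and_eq_true]
    exact ⟨hp.1, ih hp.2⟩

theorem runG4_of (F : Code) (S : Tri') (Ct : Cert) (T : TT) (d : ℕ) (ps : List (List ℕ))
    (hps : paths d = ps) (h : runG5 F S Ct T ps = true) : runG4 F S Ct T = true := by
  unfold runG5 at h
  rw [allLR_eq] at h
  have h1 := e1_allL _ _ h
  rw [← hps] at h1
  have h2 := GG5_split F.k S Ct.wd Ct.t (mkUX Ct.W Ct.B Ct.K1 Ct.K2 0 F.k) d 0 .nil 0 0 _ T h1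
  have h3 : GG5 F.k S Ct.wd Ct.t [] (mkUX Ct.W Ct.B Ct.K1 Ct.K2 0 F.k) =
    GGQ F.k S Ct.wd Ct.t (mkUX Ct.W Ct.B Ct.K1 Ct.K2 0 F.k) := rfl
  rw [h3, GGQ_eq] at h2
  exact h2

/-- the partial colourings of `d` more vertices -/
def front (F : Code) : ℕ → ℕ → ℕ → List ℕ
  | 0, _, G => [G]
  | d + 1, v, G =>
    perms6.flatMap (fun π => cond (and (okD F G v (Nat.mul 3 v) (d2 π 0))
        (and (okD F G v (Nat.add (Nat.mul 3 v) 1) (d2 π 1))
          (okD F G v (Nat.add (Nat.mul 3 v) 2) (d2 π 2))))
      (front F d (Nat.succ v) (Nat.add G (Nat.shiftLeft π (Nat.mul 6 v)))) [])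

noncomputable def runE (F : Code) (test : ℕ → Bool) (f v : ℕ) (l : List ℕ) : Bool :=
  allLR (fun G => enumR F test f v G) l

lemma runE_append (F : Code) (test : ℕ → Bool) (f v : ℕ) (p q : List ℕ)
    (hp : runE F test f v p = true) (hq : runE F test f v q = true) :
    runE F test f v (p ++ q) = true := by
  unfold runE at *
  rw [allLR_eq] at *
  induction p with
  | nil => exact hq
  | cons a p ih =>
    have e : ∀ l, allL (fun G => enumR F test f v G) (a :: l) = (enumR F test f v a &&
      allL (fun G => enumR F test f v G) l) := fun _ => rfl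
    rw [e, Bool.and_eq_true] at hp
    rw [List.cons_append, e, Bool.and_eq_true]
    exact ⟨hp.1, ih hp.2⟩

lemma allL_of {α : Type} (g : α → Bool) (l : List α) (h : ∀ a ∈ l, g a = true) :
    allL g l = true := by
  induction l with
  | nil => rfl
  | cons a l ih =>
    have e : allL g (a :: l) = (g a && allL g l) := rfl
    rw [e, Bool.and_eq_true]
    exact ⟨h a (by simp), ih (fun b hb => h b (by simp [hb]))⟩

lemma enumR_front (F : Code) (test : ℕ → Bool) (f : ℕ) : ∀ (d v G : ℕ),
    (∀ G' ∈ front F d v G, enumR F test f (v + d) G' = true) → enumR F test (f + d) v G = true := by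
  intro d
  induction d with
  | zero =>
    intro v G h
    exact h G (by simp [front])
  | succ d ih =>
    intro v G h
    have e : enumR F test (f + (d + 1)) v G =
      allLR (fun π => Bool.rec true (enumR F test (f + d) (Nat.succ v)
        (Nat.add G (Nat.shiftLeft π (Nat.mul 6 v))))
         (andR (okD F G v (Nat.mul 3 v) (d2 π 0))
        (andR (okD F G v (Nat.add (Nat.mul 3 v) 1) (d2 π 1))
          (okD F G v (Nat.add (Nat.mul 3 v) 2) (d2 π 2))))) perms6 := rfl
    rw [e, allLR_eq]
    apply allL_of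
    intro π hπ
    rw [andR_eq, andR_eq]
    cases hc : (okD F G v (Nat.mul 3 v) (d2 π 0) &&
        (okD F G v (Nat.add (Nat.mul 3 v) 1) (d2 π 1) &&
          okD F G v (Nat.add (Nat.mul 3 v) 2) (d2 π 2))) with
    | false => rfl
    | true =>
      change enumR F test (f + d) (Nat.succ v) _ = true
      apply ih
      intro G' hG'
      have h1 := h G' (by
        simp only [front, List.mem_flatMap]
        refine ⟨π, hπ, ?_⟩
        have h2 : (and (okD F G v (Nat.mul 3 v) (d2 π 0))
          (and (okD F G v (Nat.add (Nat.mul 3 v) 1) (d2 π 1))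
          (okD F G v (Nat.add (Nat.mul 3 v) 2) (d2 π 2)))) = true := hc
        rw [h2]
        exact hG')
      have h3 : Nat.succ v + d = v + (d + 1) := by
        rw [Nat.succ_eq_add_one]; ring
      rw [h3]
      exact h1

theorem enumR_of (F : Code) (test : ℕ → Bool) (d f : ℕ) (hf : Nat.pred F.n = f + d) (l : List ℕ)
    (hl : front F d 1 36 = l) (h : runE F test f (1 + d) l = true) :
    enumR F test (Nat.pred F.n) 1 36 = true := by
  rw [hf]
  apply enumR_front
  rw [hl]
  unfold runE at h
  rw [allLR_eq] at h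
  exact e1_allL _ _ h

end Pool.Agent.Helper17.CT
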